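import Pool.Agent.N571.EX.Plain

/-!
# MP_02fda4_an, Q1: yes

There are a `II₁` factor `N` with the Haagerup property and an existential embedding `N ⊆ M` such
that `M` is a `II₁` factor with property (T). The definitions are in `Pool.Agent.N571.EX.Plain`;
they are the ones of the problem file, `L²(N)` being the closure of `N Ω`.

In the proof, `G = E₃(F₅₁₂[Sym_fin(ℤ) ⋊ ℤ])` is a countable Kazhdan group with infinite conjugacy
classes, `K = E₃(F₅₁₂[Sym_fin(ℤ)])` is a locally finite subgroup with infinite conjugacy classes,
`N = L(K)` and `M = L(G)`. The cycles `c n` on `{-n, …, n}` give maps `θ n : G → K` (`t ↦ c n`)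
which are multiplicative and injective on each finite set for large `n` and which are eventually the
identity on each element of `K`. So `K ≤ G` is an existential inclusion of groups, which is the
second part, and `L(K) ⊆ L(G)` is existential.
-/

set_option autoImplicit false

namespace Pool.Agent.Results.MP_02fda4_an.HaagerupExistentialInT

open Pool.Agent.N571.EX.Plain (IsExample IsGroupExample)

/-- First part: there are `II₁` factors `N ⊆ M` with the same trace, on a separable Hilbert space,
such that `N` has the Haagerup property, `M` has property (T) and the inclusion `N ⊆ M` is
existential, for every non-principal ultrafilter on `ℕ`.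

Second part, for groups: there are a countable group `G` with Kazhdan's property (T) and
infinite conjugacy classes and an infinite locally finite subgroup `Λ` (so `Λ` has the Haagerup
property) with infinite conjugacy classes such that the inclusion `Λ ≤ G` is existential, for every
non-principal ultrafilter on `ℕ`. -/
theorem result :
    (∃ (H : Type) (_ : NormedAddCommGroup H) (_ : InnerProductSpace ℂ H) (_ : CompleteSpace H)
      (_ : TopologicalSpace.SeparableSpace H) (N M : VonNeumannAlgebra H) (Ω : H),
      IsExample N M Ω) ∧
    ∃ (G : Type) (_ : Group G) (Λ : Subgroup G), IsGroupExample G Λ :=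
  ⟨Pool.Agent.N571.EX.Plain.final_vn, Pool.Agent.N571.EX.Plain.final_gr⟩

end Pool.Agent.Results.MP_02fda4_an.HaagerupExistentialInT
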